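import Mathlib

open Pointwise

namespace Pool.Agent.Results.MP_7aef23_nt.ThetaEqOne

/-- `x` is a sum of `k` elements of `A ∪ (-A)`, repetitions allowed (the empty sum is `0`). -/
def IsSumOf (A : Set ℤ) (k : ℕ) (x : ℤ) : Prop :=
  ∃ f : Fin k → ℤ, (∀ i, f i ∈ A ∨ -(f i) ∈ A) ∧ ∑ i, f i = x

/-- Word length: the least `k` such that `x` is a sum of `k` elements of `A ∪ (-A)`
(`⊤` if there is none). -/
noncomputable def wordLength (A : Set ℤ) (x : ℤ) : ℕ∞ :=
  ⨅ (k : ℕ) (_ : IsSumOf A k x), (k : ℕ∞)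

/-- `A` generates `ℤ`: every integer has finite word length. -/
def Generates (A : Set ℤ) : Prop := ∀ x : ℤ, wordLength A x < ⊤

/-- The integers of word length exactly `r`. -/
def sphere (A : Set ℤ) (r : ℕ) : Set ℤ := {x | wordLength A x = r}

/-- The counting function `A(t)`. -/
noncomputable def count (A : Set ℤ) (t : ℝ) : ℕ := {a : ℤ | a ∈ A ∧ (a : ℝ) ≤ t}.ncard

/-- `A(t) ≥ c t^θ` for some `c > 0` and all sufficiently large `t`. -/
def HasGrowth (A : Set ℤ) (θ : ℝ) : Prop :=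
  ∃ c : ℝ, 0 < c ∧ ∀ᶠ t : ℝ in Filter.atTop, c * t ^ θ ≤ count A t

/-- The sets `A` of positive integers that generate `ℤ` and whose sphere of radius `r` is
`W ∪ (-W)`. -/
def Family (r : ℕ) (W : Finset ℤ) : Set (Set ℤ) :=
  {A | (∀ a ∈ A, 0 < a) ∧ Generates A ∧ sphere A r = {x | x ∈ W ∨ -x ∈ W}}

/-- `θ(r, W)` (the supremum of the empty set being `0`). -/
noncomputable def theta (r : ℕ) (W : Finset ℤ) : ℝ :=
  sSup {θ : ℝ | 0 < θ ∧ ∃ A ∈ Family r W, HasGrowth A θ}


/-- digits: with all `a * g^i` in `D`, every natural number below `g^k` is in `k • D`. -/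
theorem digits_mem {p : ℕ} (g : ℕ) (hg : 0 < g) (h : ℕ) (D : Set (ZMod p))
    (hD : ∀ i < h, ∀ a < g, ((a * g ^ i : ℕ) : ZMod p) ∈ D) :
    ∀ k ≤ h, ∀ n < g ^ k, (n : ZMod p) ∈ k • D := by
  intro k
  induction k with
  | zero =>
    intro _ n hn
    have : n = 0 := by simpa using hn
    subst this
    simp
  | succ k ih =>
    intro hk n hn
    have h1 : n % g ^ k < g ^ k := Nat.mod_lt _ (pow_pos hg k)
    have h2 : n / g ^ k < g := by
      rw [Nat.div_lt_iff_lt_mul (pow_pos hg k)]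
      rw [pow_succ] at hn
      linarith [mul_comm (g ^ k) g]
    have h3 := ih (by omega) _ h1
    have h4 := hD k (by omega) _ h2
    rw [succ_nsmul]
    refine Set.mem_add.2 ⟨_, h3, _, h4, ?_⟩
    rw [← Nat.cast_add]
    congr 1
    have := Nat.mod_add_div n (g ^ k)
    linarith [mul_comm (g ^ k) (n / g ^ k)]

theorem thin_basis (h : ℕ) (hh : 1 ≤ h) (S : Finset ℤ) (hS : ∀ s ∈ S, s ≠ 0) :
    ∃ p : ℕ, p.Prime ∧ ∃ D : Set (ZMod p), 0 ∈ D ∧ (∀ d ∈ D, -d ∈ D) ∧
      (h • D = Set.univ) ∧ ∀ s ∈ S, (s : ZMod p) ∉ (h - 1) • D := by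
  classical
  obtain ⟨M, hM⟩ : ∃ M : ℕ, ∀ s ∈ S, s.natAbs ≤ M :=
    ⟨S.sup (fun s => s.natAbs), fun s hs => Finset.le_sup (f := fun s : ℤ => s.natAbs) hs⟩
  set g' : ℕ := S.card * (2 * h) ^ (h - 1) + 1 + M with hg'
  set g : ℕ := 2 * g' with hg
  have hgpos : 0 < g := by omega
  have hg'pos : 0 < g' := by omega
  have hn0 : g' * g ^ (h - 1) ≠ 0 := by positivity
  obtain ⟨p, hp, hp1, hp2⟩ := Nat.exists_prime_lt_and_le_two_mul _ hn0
  have hp3 : p ≤ g ^ h := by
    refine hp2.trans (le_of_eq ?_)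
    obtain ⟨k, rfl⟩ : ∃ k, h = k + 1 := ⟨h - 1, by omega⟩
    simp only [Nat.add_sub_cancel, pow_succ]
    rw [hg]; ring
  have hpS : S.card * (2 * g * h) ^ (h - 1) + 1 + M < p := by
    refine lt_of_le_of_lt ?_ hp1
    have h1 : (2 * g * h) ^ (h - 1) = (2 * h) ^ (h - 1) * g ^ (h - 1) := by
      rw [← mul_pow]; congr 1; ring
    have h2 : 1 ≤ g ^ (h - 1) := Nat.one_le_pow _ _ hgpos
    rw [h1, hg']
    nlinarith [Nat.zero_le M, Nat.zero_le (S.card * (2 * h) ^ (h - 1))]
  have : Fact p.Prime := ⟨hp⟩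
  have : NeZero p := ⟨hp.ne_zero⟩
  -- the basic set
  let E : Finset (ZMod p) :=
    (Finset.range h ×ˢ Finset.range g).image (fun x => ((x.2 * g ^ x.1 : ℕ) : ZMod p))
  let D0 : Finset (ZMod p) := E ∪ E.image (fun x => -x)
  have hEcard : E.card ≤ h * g := by
    refine Finset.card_image_le.trans ?_
    simp
  have hD0card : D0.card ≤ 2 * g * h := by
    refine (Finset.card_union_le _ _).trans ?_
    have := Finset.card_image_le (s := E) (f := fun x => -x)
    nlinarith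
  have hD0E : ∀ i < h, ∀ a < g, ((a * g ^ i : ℕ) : ZMod p) ∈ (D0 : Set (ZMod p)) := by
    intro i hi a ha
    simp only [D0, Finset.coe_union, Set.mem_union]
    left
    simp only [E, Finset.coe_image, Set.mem_image, Finset.mem_coe, Finset.mem_product,
      Finset.mem_range]
    exact ⟨(i, a), ⟨hi, ha⟩, rfl⟩
  have hD00 : (0 : ZMod p) ∈ (D0 : Set (ZMod p)) := by
    have := hD0E 0 (by omega) 0 hgpos
    simpa using this
  have hD0neg : ∀ d ∈ (D0 : Set (ZMod p)), -d ∈ (D0 : Set (ZMod p)) := by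
    intro d hd
    simp only [D0, Finset.coe_union, Set.mem_union, Finset.coe_image, Set.mem_image,
      Finset.mem_coe] at hd ⊢
    rcases hd with hd | ⟨e, he, rfl⟩
    · right; exact ⟨d, hd, rfl⟩
    · left; simpa using he
  have hD0full : h • (D0 : Set (ZMod p)) = Set.univ := by
    rw [Set.eq_univ_iff_forall]
    intro x
    have h1 := digits_mem (p := p) g hgpos h (D0 : Set (ZMod p)) hD0E h le_rfl x.val
      (lt_of_lt_of_le (ZMod.val_lt x) hp3)
    simpa using h1
  -- the bad units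
  let bad : Finset (ZMod p) :=
    S.biUnion (fun s => ((h - 1) • D0).image (fun y => y * (s : ZMod p)⁻¹))
  have hbad : bad.card ≤ S.card * (2 * g * h) ^ (h - 1) := by
    refine Finset.card_biUnion_le_card_mul _ _ _ ?_
    intro s _
    refine Finset.card_image_le.trans ?_
    refine Finset.card_nsmul_le.trans ?_
    exact Nat.pow_le_pow_left hD0card _
  obtain ⟨u, hu⟩ : ∃ u : ZMod p, u ∉ insert 0 bad := by
    by_contra hcon
    push Not at hcon
    have h1 : (insert (0 : ZMod p) bad) = Finset.univ := by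
      ext x; simp only [Finset.mem_univ, iff_true]; exact hcon x
    have h2 : (insert (0 : ZMod p) bad).card = p := by
      rw [h1, Finset.card_univ, ZMod.card]
    have h3 := Finset.card_insert_le (0 : ZMod p) bad
    omega
  have hu0 : u ≠ 0 := by
    intro h0; apply hu; rw [h0]; exact Finset.mem_insert_self _ _
  have hub : u ∉ bad := fun h0 => hu (Finset.mem_insert_of_mem h0)
  have hsne : ∀ s ∈ S, (s : ZMod p) ≠ 0 := by
    intro s hs h0
    rw [ZMod.intCast_zmod_eq_zero_iff_dvd] at h0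
    have h1 := Int.natAbs_dvd_natAbs.2 h0
    have h2 := Nat.le_of_dvd (Int.natAbs_pos.2 (hS s hs)) h1
    have h3 := hM s hs
    simp at h2
    omega
  have himg : ∀ k : ℕ, k • ((fun d => u⁻¹ * d) '' (D0 : Set (ZMod p))) =
      (fun d => u⁻¹ * d) '' (k • (D0 : Set (ZMod p))) := by
    intro k
    have := Set.image_nsmul (AddMonoidHom.mulLeft (u⁻¹ : ZMod p)) (D0 : Set (ZMod p)) k
    exact this.symm
  refine ⟨p, hp, (fun d => u⁻¹ * d) '' (D0 : Set (ZMod p)), ⟨0, hD00, by simp⟩, ?_, ?_, ?_⟩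
  · rintro _ ⟨d, hd, rfl⟩
    exact ⟨-d, hD0neg d hd, by simp⟩
  · rw [himg, hD0full, Set.eq_univ_iff_forall]
    intro x
    exact ⟨u * x, Set.mem_univ _, by simp [hu0]⟩
  · intro s hs hmem
    rw [himg] at hmem
    obtain ⟨y, hy, hys⟩ := hmem
    apply hub
    simp only [bad, Finset.mem_biUnion, Finset.mem_image]
    refine ⟨s, hs, y, ?_, ?_⟩
    · rw [← Finset.mem_coe, Finset.coe_nsmul]; exact hy
    · simp only at hys
      rw [← hys, mul_inv, inv_inv, mul_comm u, ← mul_assoc]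
      have hy0 : y ≠ 0 := by
        rintro rfl
        simp at hys
        exact hsne s hs hys.symm
      field_simp



theorem mem_nsmul_mono {C : Set ℤ} (h0 : (0 : ℤ) ∈ C) {m n : ℕ} (hmn : m ≤ n) {x : ℤ}
    (hx : x ∈ m • C) : x ∈ n • C :=
  Set.nsmul_subset_nsmul_right h0 hmn hx

theorem mem_nsmul_union {C : Set ℤ} (h0 : (0 : ℤ) ∈ C) (y : ℤ) :
    ∀ (k : ℕ) (z : ℤ), z ∈ k • (C ∪ {y, -y}) →
      ∃ i : ℤ, i.natAbs ≤ k ∧ z - i * y ∈ (k - i.natAbs) • C := by
  intro k
  induction k with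
  | zero =>
    intro z hz
    simp at hz
    subst hz
    exact ⟨0, by simp, by simp⟩
  | succ k ih =>
    intro z hz
    rw [succ_nsmul] at hz
    obtain ⟨z', hz', e, he, rfl⟩ := Set.mem_add.1 hz
    obtain ⟨i, hi, hi2⟩ := ih z' hz'
    rcases he with he | he | he
    · refine ⟨i, by omega, ?_⟩
      have h1 : k + 1 - i.natAbs = (k - i.natAbs) + 1 := by omega
      rw [h1, succ_nsmul]
      refine Set.mem_add.2 ⟨_, hi2, e, he, by ring⟩
    · subst he
      refine ⟨i + 1, by omega, ?_⟩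
      have h2 : z' + e - (i + 1) * e = z' - i * e := by ring
      rw [h2]
      exact mem_nsmul_mono h0 (by omega) hi2
    · have he' : e = -y := he
      subst he'
      refine ⟨i - 1, by omega, ?_⟩
      have h2 : z' + -y - (i - 1) * y = z' - i * y := by ring
      rw [h2]
      exact mem_nsmul_mono h0 (by omega) hi2

/-- bounded sets have bounded multiples -/
theorem nsmul_bdd {C : Set ℤ} {M : ℤ} (hM : ∀ c ∈ C, |c| ≤ M) :
    ∀ (k : ℕ) (z : ℤ), z ∈ k • C → |z| ≤ k * M := by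
  intro k
  induction k with
  | zero => intro z hz; simp at hz; simp [hz]
  | succ k ih =>
    intro z hz
    rw [succ_nsmul] at hz
    obtain ⟨z', hz', e, he, rfl⟩ := Set.mem_add.1 hz
    have h1 := ih z' hz'
    have h2 := hM e he
    have h3 := abs_add_le z' e
    push_cast
    linarith

/-- the properties kept along the construction -/
structure Good (h : ℕ) (S : Finset ℤ) (p : ℕ) (D : Set (ZMod p)) (C : Set ℤ) : Prop where
  fin : C.Finite
  zero : (0 : ℤ) ∈ C
  neg : ∀ c ∈ C, -c ∈ C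
  res : ∀ c ∈ C, ((c : ℤ) : ZMod p) ∈ D
  avoid : ∀ s ∈ S, s ∉ h • C

theorem extend_aux (h : ℕ) (S : Finset ℤ) (hSneg : ∀ s ∈ S, -s ∈ S) (p : ℕ) (hp : 0 < p)
    (D : Set (ZMod p)) (hDneg : ∀ d ∈ D, -d ∈ D) :
    ∀ (m : ℕ) (C : Set ℤ) (y : ℤ), C.Finite → (0 : ℤ) ∈ C → (∀ c ∈ C, -c ∈ C) →
      (∀ c ∈ C, ((c : ℤ) : ZMod p) ∈ D) → ((y : ℤ) : ZMod p) ∈ (m + 1) • D →
      (∀ j : ℕ, j * (m + 1) ≤ h → ∀ s ∈ S, s - j * y ∉ (h - j * (m + 1)) • C) →
      ∃ C' : Set ℤ, C ⊆ C' ∧ Good h S p D C' ∧ y ∈ (m + 1) • C' := by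
  intro m
  induction m with
  | zero =>
    intro C y hfin h0 hneg hres hy hF
    have hyD : ((y : ℤ) : ZMod p) ∈ D := by simpa using hy
    refine ⟨C ∪ {y, -y}, Set.subset_union_left, ⟨?_, ?_, ?_, ?_, ?_⟩, ?_⟩
    · exact hfin.union (by simp)
    · exact Or.inl h0
    · rintro c (hc | hc | hc)
      · exact Or.inl (hneg c hc)
      · right; right; rw [hc]; rfl
      · right; left
        have : c = -y := hc
        rw [this]; ring
    · rintro c (hc | hc | hc)
      · exact hres c hc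
      · rw [hc]; exact hyD
      · have : c = -y := hc
        rw [this]; push_cast; exact hDneg _ hyD
    · intro s hs hmem
      obtain ⟨i, hi, hi2⟩ := mem_nsmul_union h0 y h s hmem
      rcases le_total 0 i with hi0 | hi0
      · obtain ⟨j, rfl⟩ := Int.eq_ofNat_of_zero_le hi0
        have := hF j (by simpa using hi) s hs
        apply this
        simpa using hi2
      · obtain ⟨j, hj⟩ := Int.eq_ofNat_of_zero_le (neg_nonneg.2 hi0)
        have hij : i = -(j : ℤ) := by linarith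
        subst hij
        have := hF j (by simpa using hi) (-s) (hSneg s hs)
        apply this
        -- need closure under negation of multiples
        have hnegk : ∀ (k : ℕ) (z : ℤ), z ∈ k • C → -z ∈ k • C := by
          intro k
          induction k with
          | zero => intro z hz; simp at hz; simp [hz]
          | succ k ih =>
            intro z hz
            rw [succ_nsmul] at hz ⊢
            obtain ⟨z', hz', e, he, rfl⟩ := Set.mem_add.1 hz
            exact Set.mem_add.2 ⟨-z', ih z' hz', -e, hneg e he, by ring⟩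
        have h3 := hnegk _ _ hi2
        have h4 : -(s - -(j : ℤ) * y) = -s - j * y := by ring
        rw [h4] at h3
        simpa using h3
    · simp
  | succ m ih =>
    intro C y hfin h0 hneg hres hy hF
    -- split the residue
    rw [succ_nsmul] at hy
    obtain ⟨e, he, d, hd, hed⟩ := Set.mem_add.1 hy
    -- bounds
    obtain ⟨M, hM⟩ : ∃ M : ℕ, ∀ c ∈ C, |c| ≤ (M : ℤ) := by
      obtain ⟨M, hM⟩ := (hfin.image (fun c => |c|)).bddAbove
      refine ⟨M.toNat, fun c hc => ?_⟩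
      have : |c| ≤ M := hM ⟨c, hc, rfl⟩
      exact this.trans (Int.self_le_toNat M)
    obtain ⟨M', hM'⟩ : ∃ M : ℕ, ∀ s ∈ S, |s| ≤ (M : ℤ) := by
      refine ⟨S.sup (fun s => s.natAbs), fun s hs => ?_⟩
      have := Finset.le_sup (f := fun s : ℤ => s.natAbs) hs
      rw [Int.abs_eq_natAbs]
      exact_mod_cast this
    -- the large integer N
    obtain ⟨N, hN1, hN2⟩ : ∃ N : ℤ, ((N : ℤ) : ZMod p) = d ∧ (M' + h * |y| + h * M : ℤ) < N := by
      have : NeZero p := ⟨hp.ne'⟩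
      refine ⟨(d.val : ℤ) + p * (M' + h * |y| + h * M + 1), ?_, ?_⟩
      · push_cast
        simp
      · have h1 : (1 : ℤ) ≤ p := by exact_mod_cast hp
        have h2 : (0 : ℤ) ≤ M' + h * |y| + h * M := by positivity
        have h3 : (0 : ℤ) ≤ d.val := by positivity
        nlinarith
    have hN0 : 0 < N := lt_of_le_of_lt (by positivity) hN2
    set C1 : Set ℤ := C ∪ {N, -N} with hC1
    have hNC1 : N ∈ C1 := by rw [hC1]; right; left; rfl
    obtain ⟨C', hCC', hgood, hmem⟩ := ih C1 (y - N)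
      (hfin.union (by simp)) (Or.inl h0)
      (by
        rintro c (hc | hc | hc)
        · exact Or.inl (hneg c hc)
        · right; right; rw [hc]; rfl
        · right; left
          have : c = -N := hc
          rw [this]; ring)
      (by
        rintro c (hc | hc | hc)
        · exact hres c hc
        · rw [hc, hN1]; exact hd
        · have : c = -N := hc
          rw [this]; push_cast; rw [hN1]; exact hDneg _ hd)
      (by
        push_cast
        rw [hN1, ← hed]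
        simpa using he)
      (by
        intro j hj s hs hmem
        obtain ⟨i, hi, hi2⟩ := mem_nsmul_union h0 N _ _ hmem
        have hb := nsmul_bdd hM _ _ hi2
        -- i = j
        have hjh : j ≤ h := le_trans (by nlinarith) hj
        have hkey : i = j := by
          by_contra hne
          have h1 : (1 : ℤ) ≤ |(j : ℤ) - i| := by
            apply Int.one_le_abs
            intro h2; apply hne; linarith
          have h2 : s - (j : ℤ) * (y - N) - i * N = (s - j * y) + ((j : ℤ) - i) * N := by ring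
          rw [h2] at hb
          have h3 : |((j : ℤ) - i) * N| ≤ |(s - j * y) + ((j : ℤ) - i) * N| + |s - j * y| := by
            have := abs_sub_abs_le_abs_sub (((j : ℤ) - i) * N) (-(s - j * y))
            rw [abs_neg] at this
            have h4 : ((j : ℤ) - i) * N - -(s - j * y) = (s - j * y) + ((j : ℤ) - i) * N := by ring
            rw [h4] at this
            linarith
          have h4 : |s - (j : ℤ) * y| ≤ M' + h * |y| := by
            calc |s - (j : ℤ) * y| ≤ |s| + |(j : ℤ) * y| := abs_sub _ _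
              _ ≤ M' + j * |y| := by
                rw [abs_mul]
                have := hM' s hs
                simp only [Nat.abs_cast]
                linarith
              _ ≤ M' + h * |y| := by
                have : (j : ℤ) ≤ h := by exact_mod_cast hjh
                nlinarith [abs_nonneg y]
          have h5 : ((h - j * (m + 1) - i.natAbs : ℕ) : ℤ) * M ≤ h * M := by
            have : ((h - j * (m + 1) - i.natAbs : ℕ) : ℤ) ≤ h := by
              have : (h - j * (m + 1) - i.natAbs : ℕ) ≤ h := by omega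
              exact_mod_cast this
            have hM0 : (0 : ℤ) ≤ M := by positivity
            nlinarith
          have h6 : |((j : ℤ) - i) * N| = |(j : ℤ) - i| * N := by
            rw [abs_mul, abs_of_pos hN0]
          rw [h6] at h3
          nlinarith
        subst hkey
        have h1 : s - (j : ℤ) * (y - N) - (j : ℤ) * N = s - j * y := by ring
        rw [h1] at hi2
        have h2 : j * (m + 1 + 1) ≤ h := by
          have := hi
          simp only [Int.natAbs_natCast] at this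
          have h3 : j * (m + 1 + 1) = j * (m + 1) + j := by ring
          omega
        apply hF j h2 s hs
        have h3 : h - j * (m + 1) - (j : ℤ).natAbs = h - j * (m + 1 + 1) := by
          simp only [Int.natAbs_natCast]
          have h3 : j * (m + 1 + 1) = j * (m + 1) + j := by ring
          omega
        rw [h3] at hi2
        exact hi2)
    refine ⟨C', (Set.subset_union_left.trans hCC'), hgood, ?_⟩
    rw [succ_nsmul]
    exact Set.mem_add.2 ⟨_, hmem, N, hCC' hNC1, by ring⟩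

theorem extend (h : ℕ) (hh : 1 ≤ h) (S : Finset ℤ) (hSneg : ∀ s ∈ S, -s ∈ S) (p : ℕ) (hp : 0 < p)
    (D : Set (ZMod p)) (hDneg : ∀ d ∈ D, -d ∈ D) (hDfull : h • D = Set.univ)
    (C : Set ℤ) (hC : Good h S p D C) (x : ℤ) :
    ∃ C' : Set ℤ, C ⊆ C' ∧ Good h S p D C' ∧ (x ∉ S → x ∈ h • C') := by
  by_cases hx : x ∈ S
  · exact ⟨C, subset_rfl, hC, fun h => absurd hx h⟩
  obtain ⟨m, rfl⟩ : ∃ m, h = m + 1 := ⟨h - 1, by omega⟩
  obtain ⟨C', h1, h2, h3⟩ := extend_aux (m + 1) S hSneg p hp D hDneg m C x hC.fin hC.zero hC.neg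
    hC.res (by rw [hDfull]; trivial) (by
      intro j hj s hs hmem
      have hj1 : j ≤ 1 := by
        by_contra hcon
        push Not at hcon
        nlinarith
      interval_cases j
      · apply hC.avoid s hs
        simpa using hmem
      · have h1 : m + 1 - 1 * (m + 1) = 0 := by omega
        rw [h1] at hmem
        simp at hmem
        apply hx
        have : x = s := by linarith
        rw [this]; exact hs)
  exact ⟨C', h1, h2, fun _ => h3⟩

theorem mem_nsmul_iUnion (C : ℕ → Set ℤ) (hmono : Monotone C) :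
    ∀ (k : ℕ) (z : ℤ), z ∈ k • (⋃ n, C n) → ∃ n, z ∈ k • C n := by
  intro k
  induction k with
  | zero => intro z hz; exact ⟨0, by simpa using hz⟩
  | succ k ih =>
    intro z hz
    rw [succ_nsmul] at hz
    obtain ⟨z', hz', e, he, rfl⟩ := Set.mem_add.1 hz
    obtain ⟨n1, hn1⟩ := ih z' hz'
    obtain ⟨n2, hn2⟩ := Set.mem_iUnion.1 he
    refine ⟨max n1 n2, ?_⟩
    rw [succ_nsmul]
    exact Set.mem_add.2 ⟨z', Set.nsmul_subset_nsmul_left (hmono (le_max_left _ _)) hn1, e,
      hmono (le_max_right _ _) hn2, rfl⟩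

theorem exists_sparse (h : ℕ) (hh : 1 ≤ h) (S : Finset ℤ) (hSneg : ∀ s ∈ S, -s ∈ S)
    (hS0 : ∀ s ∈ S, s ≠ 0) (p : ℕ) (hp : 0 < p)
    (D : Set (ZMod p)) (hD0 : 0 ∈ D) (hDneg : ∀ d ∈ D, -d ∈ D) (hDfull : h • D = Set.univ) :
    ∃ C : Set ℤ, (0 : ℤ) ∈ C ∧ (∀ c ∈ C, -c ∈ C) ∧ (∀ c ∈ C, ((c : ℤ) : ZMod p) ∈ D) ∧
      (∀ s ∈ S, s ∉ h • C) ∧ (∀ x : ℤ, x ∉ S → x ∈ h • C) := by
  have hbase : Good h S p D {0} := by
    refine ⟨by simp, by simp, by simp, ?_, ?_⟩
    · intro c hc; rw [hc]; simpa using hD0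
    · intro s hs hmem
      simp at hmem
      exact hS0 s hs hmem
  obtain ⟨e, he⟩ := exists_surjective_nat ℤ
  choose! F hF1 hF2 hF3 using fun (C : Set ℤ) (hC : Good h S p D C) (x : ℤ) =>
    extend h hh S hSneg p hp D hDneg hDfull C hC x
  let seq : ℕ → Set ℤ := fun n => Nat.rec {0} (fun n C => F C (e n)) n
  have hseq0 : seq 0 = {0} := rfl
  have hseqs : ∀ n, seq (n + 1) = F (seq n) (e n) := fun n => rfl
  have hgood : ∀ n, Good h S p D (seq n) := by
    intro n
    induction n with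
    | zero => exact hbase
    | succ n ih => rw [hseqs]; exact hF2 _ ih _
  have hmono : Monotone seq := by
    apply monotone_nat_of_le_succ
    intro n
    rw [hseqs]
    exact hF1 _ (hgood n) _
  refine ⟨⋃ n, seq n, ?_, ?_, ?_, ?_, ?_⟩
  · exact Set.mem_iUnion.2 ⟨0, (hgood 0).zero⟩
  · intro c hc
    obtain ⟨n, hn⟩ := Set.mem_iUnion.1 hc
    exact Set.mem_iUnion.2 ⟨n, (hgood n).neg c hn⟩
  · intro c hc
    obtain ⟨n, hn⟩ := Set.mem_iUnion.1 hc
    exact (hgood n).res c hn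
  · intro s hs hmem
    obtain ⟨n, hn⟩ := mem_nsmul_iUnion seq hmono h s hmem
    exact (hgood n).avoid s hs hn
  · intro x hx
    obtain ⟨n, rfl⟩ := he x
    have h1 := hF3 (seq n) (hgood n) (e n) hx
    rw [← hseqs] at h1
    exact Set.nsmul_subset_nsmul_left (Set.subset_iUnion seq (n + 1)) h1


theorem isSumOf_zero {A : Set ℤ} {x : ℤ} : IsSumOf A 0 x ↔ x = 0 := by
  constructor
  · rintro ⟨f, _, hf⟩
    simpa using hf.symm
  · rintro rfl
    exact ⟨Fin.elim0, fun i => i.elim0, by simp⟩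

theorem isSumOf_succ {A : Set ℤ} {k : ℕ} {x : ℤ} :
    IsSumOf A (k + 1) x ↔ ∃ y e : ℤ, IsSumOf A k y ∧ (e ∈ A ∨ -e ∈ A) ∧ y + e = x := by
  constructor
  · rintro ⟨f, hf, hx⟩
    rw [Fin.sum_univ_castSucc] at hx
    exact ⟨_, _, ⟨fun i => f i.castSucc, fun i => hf _, rfl⟩, hf _, hx⟩
  · rintro ⟨y, e, ⟨f, hf, rfl⟩, he, rfl⟩
    refine ⟨Fin.snoc f e, ?_, ?_⟩
    · intro i
      refine Fin.lastCases ?_ (fun j => ?_) i
      · simpa using he
      · simpa using hf j
    · rw [Fin.sum_univ_castSucc]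
      simp

theorem mem_nsmul_iff {A B : Set ℤ} (hB : ∀ x, x ∈ B ↔ x = 0 ∨ x ∈ A ∨ -x ∈ A) :
    ∀ (k : ℕ) (x : ℤ), x ∈ k • B ↔ ∃ j ≤ k, IsSumOf A j x := by
  intro k
  induction k with
  | zero =>
    intro x
    constructor
    · intro hx
      exact ⟨0, le_rfl, isSumOf_zero.2 (by simpa using hx)⟩
    · rintro ⟨j, hj, hx⟩
      have : j = 0 := by omega
      subst this
      simpa using isSumOf_zero.1 hx
  | succ k ih =>
    intro x
    constructor
    · intro hx
      rw [succ_nsmul] at hx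
      obtain ⟨y, hy, e, he, rfl⟩ := Set.mem_add.1 hx
      obtain ⟨j, hj, hj2⟩ := (ih y).1 hy
      rcases (hB e).1 he with rfl | he
      · exact ⟨j, by omega, by simpa using hj2⟩
      · exact ⟨j + 1, by omega, isSumOf_succ.2 ⟨y, e, hj2, he, rfl⟩⟩
    · rintro ⟨j, hj, hx⟩
      rw [succ_nsmul]
      rcases j with _ | j
      · have h0 := isSumOf_zero.1 hx
        subst h0
        exact Set.mem_add.2 ⟨0, (ih 0).2 ⟨0, by omega, isSumOf_zero.2 rfl⟩, 0,
          (hB 0).2 (Or.inl rfl), by simp⟩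
      · obtain ⟨y, e, hy, he, rfl⟩ := isSumOf_succ.1 hx
        exact Set.mem_add.2 ⟨y, (ih y).2 ⟨j, by omega, hy⟩, e, (hB e).2 (Or.inr he), rfl⟩

theorem mem_nsmul_dense {p : ℕ} {D : Set (ZMod p)} (hD0 : 0 ∈ D) {C : Set ℤ}
    (hC : ∀ c ∈ C, ((c : ℤ) : ZMod p) ∈ D) :
    ∀ (k : ℕ) (z : ℤ), z ∈ k • (C ∪ {x : ℤ | (p : ℤ) ∣ x}) →
      (z ∈ k • C ∧ ((z : ℤ) : ZMod p) ∈ k • D) ∨ (1 ≤ k ∧ ((z : ℤ) : ZMod p) ∈ (k - 1) • D) := by
  intro k
  induction k with
  | zero =>
    intro z hz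
    left
    simp at hz
    simp [hz]
  | succ k ih =>
    intro z hz
    rw [succ_nsmul] at hz
    obtain ⟨z', hz', e, he, rfl⟩ := Set.mem_add.1 hz
    rcases ih z' hz' with ⟨h1, h2⟩ | ⟨h1, h2⟩
    · rcases he with he | he
      · left
        refine ⟨?_, ?_⟩
        · rw [succ_nsmul]; exact Set.mem_add.2 ⟨z', h1, e, he, rfl⟩
        · rw [succ_nsmul]; push_cast; exact Set.mem_add.2 ⟨_, h2, _, hC e he, rfl⟩
      · right
        refine ⟨by omega, ?_⟩
        have h3 : ((e : ℤ) : ZMod p) = 0 := (ZMod.intCast_zmod_eq_zero_iff_dvd e p).2 he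
        push_cast
        rw [h3]
        simpa using h2
    · right
      refine ⟨by omega, ?_⟩
      have h3 : ((e : ℤ) : ZMod p) ∈ D := by
        rcases he with he | he
        · exact hC e he
        · rw [(ZMod.intCast_zmod_eq_zero_iff_dvd e p).2 he]; exact hD0
      obtain ⟨l, rfl⟩ : ∃ l, k = l + 1 := ⟨k - 1, by omega⟩
      simp only [Nat.add_sub_cancel] at h2 ⊢
      rw [succ_nsmul]
      push_cast
      exact Set.mem_add.2 ⟨_, h2, _, h3, rfl⟩

theorem count_le (A : Set ℤ) (hA : ∀ a ∈ A, 0 < a) (t : ℝ) (ht : 0 ≤ t) :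
    (count A t : ℝ) ≤ t := by
  have h1 : {a : ℤ | a ∈ A ∧ (a : ℝ) ≤ t} ⊆ (Finset.Icc (1 : ℤ) ⌊t⌋ : Set ℤ) := by
    rintro a ⟨ha, hat⟩
    simp only [Finset.coe_Icc, Set.mem_Icc]
    exact ⟨hA a ha, Int.le_floor.2 hat⟩
  have h2 : count A t ≤ (Finset.Icc (1 : ℤ) ⌊t⌋).card := by
    unfold count
    rw [← Set.ncard_coe_finset]
    exact Set.ncard_le_ncard h1 (Finset.finite_toSet _)
  have h3 : (Finset.Icc (1 : ℤ) ⌊t⌋).card = ⌊t⌋.toNat := by
    rw [Int.card_Icc]; congr 1; ring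
  have h4 : ((⌊t⌋.toNat : ℕ) : ℝ) = (⌊t⌋ : ℝ) := by
    have : ((⌊t⌋.toNat : ℕ) : ℤ) = ⌊t⌋ := Int.toNat_of_nonneg (Int.floor_nonneg.2 ht)
    exact_mod_cast this
  calc (count A t : ℝ) ≤ (⌊t⌋.toNat : ℕ) := by rw [← h3]; exact_mod_cast h2
    _ = (⌊t⌋ : ℝ) := h4
    _ ≤ t := Int.floor_le t

theorem count_ge (A : Set ℤ) (hA : ∀ a ∈ A, 0 < a) (p : ℕ) (hp : 0 < p)
    (hAp : ∀ k : ℤ, 0 < k → (p : ℤ) * k ∈ A) (t : ℝ) (ht : 2 * p ≤ t) :
    1 / (2 * p) * t ≤ (count A t : ℝ) := by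
  have hpR : (0 : ℝ) < p := by exact_mod_cast hp
  have h0 : 0 ≤ t := by linarith [hpR]
  have hfin : {a : ℤ | a ∈ A ∧ (a : ℝ) ≤ t}.Finite := by
    refine (Finset.finite_toSet (Finset.Icc (1 : ℤ) ⌊t⌋)).subset ?_
    rintro a ⟨ha, hat⟩
    simp only [Finset.coe_Icc, Set.mem_Icc]
    exact ⟨hA a ha, Int.le_floor.2 hat⟩
  have h1 : (((Finset.Icc (1 : ℤ) ⌊t / p⌋).image (fun k => (p : ℤ) * k) : Finset ℤ) : Set ℤ) ⊆
      {a : ℤ | a ∈ A ∧ (a : ℝ) ≤ t} := by
    intro a ha
    simp only [Finset.coe_image, Finset.coe_Icc, Set.mem_image, Set.mem_Icc] at ha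
    obtain ⟨k, ⟨hk1, hk2⟩, rfl⟩ := ha
    refine ⟨hAp k (by omega), ?_⟩
    have h2 : (k : ℝ) ≤ t / p := Int.le_floor.1 hk2
    rw [le_div_iff₀ hpR] at h2
    push_cast
    linarith
  have h2 : ((Finset.Icc (1 : ℤ) ⌊t / p⌋).image (fun k => (p : ℤ) * k)).card ≤ count A t := by
    unfold count
    rw [← Set.ncard_coe_finset]
    exact Set.ncard_le_ncard h1 hfin
  have h3 : ((Finset.Icc (1 : ℤ) ⌊t / p⌋).image (fun k => (p : ℤ) * k)).card =
      ⌊t / p⌋.toNat := by
    rw [Finset.card_image_of_injective, Int.card_Icc]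
    · congr 1; ring
    · intro a b hab
      have hp' : (p : ℤ) ≠ 0 := by exact_mod_cast hp.ne'
      exact mul_left_cancel₀ hp' hab
  have h4 : ((⌊t / p⌋.toNat : ℕ) : ℝ) = (⌊t / p⌋ : ℝ) := by
    have : ((⌊t / p⌋.toNat : ℕ) : ℤ) = ⌊t / p⌋ :=
      Int.toNat_of_nonneg (Int.floor_nonneg.2 (by positivity))
    exact_mod_cast this
  have h5 : t / p - 1 < ⌊t / p⌋ := Int.sub_one_lt_floor _
  have h6 : (2 : ℝ) ≤ t / p := by rw [le_div_iff₀ hpR]; linarith
  have h7 : 1 / (2 * p) * t = (t / p) / 2 := by field_simp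
  have h8 : (⌊t / p⌋ : ℝ) ≤ count A t := by
    rw [← h4, ← h3]; exact_mod_cast h2
  rw [h7]
  linarith

theorem exists_dense (r : ℕ) (hr : 2 ≤ r) (W : Finset ℤ) (hpos : ∀ w ∈ W, 0 < w) :
    ∃ A ∈ Family r W, ∃ c : ℝ, 0 < c ∧ ∀ᶠ t : ℝ in Filter.atTop, c * t ≤ count A t := by
  classical
  obtain ⟨h, rfl⟩ : ∃ h, r = h + 1 := ⟨r - 1, by omega⟩
  have hh : 1 ≤ h := by omega
  let S : Finset ℤ := W ∪ W.image (fun x => -x)
  have hSmem : ∀ x, x ∈ S ↔ x ∈ W ∨ -x ∈ W := by
    intro x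
    simp only [S, Finset.mem_union, Finset.mem_image]
    constructor
    · rintro (hx | ⟨y, hy, rfl⟩)
      · exact Or.inl hx
      · right; simpa using hy
    · rintro (hx | hx)
      · exact Or.inl hx
      · right; exact ⟨-x, hx, by ring⟩
  have hSneg : ∀ s ∈ S, -s ∈ S := by
    intro s hs
    rw [hSmem] at hs ⊢
    rw [neg_neg]
    exact hs.symm
  have hS0 : ∀ s ∈ S, s ≠ 0 := by
    intro s hs h0
    rw [hSmem] at hs
    rcases hs with hs | hs
    · have := hpos s hs; omega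
    · have := hpos _ hs; omega
  obtain ⟨p, hp, D, hD0, hDneg, hDfull, hDS⟩ := thin_basis h hh S hS0
  obtain ⟨C, hC0, hCneg, hCD, hCS, hCfull⟩ :=
    exists_sparse h hh S hSneg hS0 p hp.pos D hD0 hDneg hDfull
  set B : Set ℤ := C ∪ {x : ℤ | (p : ℤ) ∣ x} with hBdef
  have hBneg : ∀ b ∈ B, -b ∈ B := by
    rintro b (hb | hb)
    · exact Or.inl (hCneg b hb)
    · right; exact (dvd_neg.2 hb)
  set A : Set ℤ := {a | a ∈ B ∧ 0 < a} with hAdef
  have hB : ∀ x, x ∈ B ↔ x = 0 ∨ x ∈ A ∨ -x ∈ A := by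
    intro x
    constructor
    · intro hx
      rcases lt_trichotomy x 0 with h1 | h1 | h1
      · right; right; exact ⟨hBneg x hx, by omega⟩
      · left; exact h1
      · right; left; exact ⟨hx, h1⟩
    · rintro (rfl | hx | hx)
      · exact Or.inl hC0
      · exact hx.1
      · have := hBneg _ hx.1
        simpa using this
  have hkey := mem_nsmul_iff hB
  -- the facts about lengths
  have f1 : ∀ x, x ∉ S → ∃ j ≤ h, IsSumOf A j x := by
    intro x hx
    exact (hkey h x).1 (Set.nsmul_subset_nsmul_left Set.subset_union_left (hCfull x hx))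
  have f2 : ∀ s ∈ S, ∀ j ≤ h, ¬ IsSumOf A j s := by
    intro s hs j hj hsum
    have h1 : s ∈ h • B := (hkey h s).2 ⟨j, hj, hsum⟩
    rcases mem_nsmul_dense hD0 hCD h s h1 with ⟨h2, _⟩ | ⟨_, h2⟩
    · exact hCS s hs h2
    · exact hDS s hs h2
  have f3 : ∀ s ∈ S, ∃ j ≤ h + 1, IsSumOf A j s := by
    intro s hs
    apply (hkey (h + 1) s).1
    obtain ⟨M, hM⟩ : ∃ M : ℕ, ∀ s ∈ S, s.natAbs ≤ M :=
      ⟨S.sup (fun s => s.natAbs), fun s hs => Finset.le_sup (f := fun s : ℤ => s.natAbs) hs⟩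
    have hb : ((p : ℤ) * (2 * M + 1)) ∈ B := by right; exact Dvd.intro _ rfl
    have hsb : s - (p : ℤ) * (2 * M + 1) ∉ S := by
      intro hcon
      have h1 := hM _ hcon
      have h2 := hM _ hs
      have h3 : (1 : ℤ) ≤ p := by exact_mod_cast hp.pos
      have h4 : (2 * M + 1 : ℤ) ≤ (p : ℤ) * (2 * M + 1) := by nlinarith
      omega
    rw [succ_nsmul]
    refine Set.mem_add.2 ⟨_, (hkey h _).2 (f1 _ hsb), _, hb, by ring⟩
  have hApos : ∀ a ∈ A, 0 < a := fun a ha => ha.2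
  have hwl : ∀ (x : ℤ) (j : ℕ), IsSumOf A j x → wordLength A x ≤ j := by
    intro x j hj
    exact iInf₂_le j hj
  refine ⟨A, ⟨hApos, ?_, ?_⟩, 1 / (2 * p), ?_, ?_⟩
  · intro x
    by_cases hx : x ∈ S
    · obtain ⟨j, _, hj⟩ := f3 x hx
      exact lt_of_le_of_lt (hwl x j hj) (ENat.natCast_lt_top j)
    · obtain ⟨j, _, hj⟩ := f1 x hx
      exact lt_of_le_of_lt (hwl x j hj) (ENat.natCast_lt_top j)
  · ext x
    simp only [sphere, Set.mem_ofPred_eq]
    rw [← hSmem x]
    constructor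
    · intro hx
      by_contra hxS
      obtain ⟨j, hj, hj2⟩ := f1 x hxS
      have h1 := hwl x j hj2
      rw [hx] at h1
      have h2 : h + 1 ≤ j := by exact_mod_cast h1
      omega
    · intro hx
      apply le_antisymm
      · obtain ⟨j, hj, hj2⟩ := f3 x hx
        exact (hwl x j hj2).trans (by exact_mod_cast hj)
      · refine le_iInf₂ ?_
        intro j hj
        have h1 : ¬ j ≤ h := fun hjh => f2 x hx j hjh hj
        have h2 : h + 1 ≤ j := by omega
        exact_mod_cast h2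
  · have : (0 : ℝ) < p := by exact_mod_cast hp.pos
    positivity
  · filter_upwards [Filter.eventually_ge_atTop (2 * (p : ℝ))] with t ht
    refine count_ge A hApos p hp.pos ?_ t ht
    intro k hk
    refine ⟨Or.inr (Dvd.intro _ rfl), ?_⟩
    have : (0 : ℤ) < p := by exact_mod_cast hp.pos
    positivity

theorem result (r : ℕ) (hr : 2 ≤ r) (W : Finset ℤ) (hpos : ∀ w ∈ W, 0 < w) :
    theta r W = 1 ∧
      ∃ A ∈ Family r W, ∃ c : ℝ, 0 < c ∧ ∀ᶠ t : ℝ in Filter.atTop, c * t ≤ count A t := by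
  have hmain := exists_dense r hr W hpos
  refine ⟨?_, hmain⟩
  obtain ⟨A, hA, c, hc, hct⟩ := hmain
  have h1 : (1 : ℝ) ∈ {θ : ℝ | 0 < θ ∧ ∃ A ∈ Family r W, HasGrowth A θ} := by
    refine ⟨one_pos, A, hA, c, hc, ?_⟩
    filter_upwards [hct] with t ht
    simpa using ht
  have h2 : ∀ θ ∈ {θ : ℝ | 0 < θ ∧ ∃ A ∈ Family r W, HasGrowth A θ}, θ ≤ 1 := by
    rintro θ ⟨_, A', hA', c', hc', hgrow⟩
    by_contra hcon
    push Not at hcon
    have h3 := (tendsto_rpow_atTop (sub_pos.2 hcon)).eventually_gt_atTop (1 / c')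
    obtain ⟨t, ⟨ht1, ht2⟩, ht3⟩ :=
      ((hgrow.and h3).and (Filter.eventually_gt_atTop (0 : ℝ))).exists
    have h4 := count_le A' hA'.1 t ht3.le
    have h5 : t ^ θ = t ^ (θ - 1) * t := by
      rw [Real.rpow_sub_one ht3.ne']
      field_simp
    rw [h5] at ht1
    rw [div_lt_iff₀ hc'] at ht2
    have h6 : t < c' * (t ^ (θ - 1) * t) := by
      have : c' * (t ^ (θ - 1) * t) = (t ^ (θ - 1) * c') * t := by ring
      rw [this]
      nlinarith
    linarith
  exact le_antisymm (csSup_le ⟨1, h1⟩ h2) (le_csSup ⟨1, h2⟩ h1)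

end Pool.Agent.Results.MP_7aef23_nt.ThetaEqOne
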